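import Pool.Agent.P.MP_b91a16_ag.Id.Main

/-!
The strong motivic monodromy conjecture at the origin, with the local Bernstein-Sato polynomial,
for the hypersurface `y_1 f_1 + ⋯ + y_r f_r` attached to an arbitrary ideal `(f_1, …, f_r)` of
polynomials in two variables.
-/

namespace Pool.Agent.Results.MP_b91a16_ag.PlaneIdeals

open Pool.Agent.P.MP_b91a16_ag

theorem result (k : Type) [Field k] [CharZero k] [IsAlgClosed k] (r : ℕ)
    (f : Fin r → MvPolynomial (Fin 2) k) (hf : f ≠ 0) (g : MvPolynomial (Fin (2 + r)) k)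
    (hg : g = ∑ i, MvPolynomial.X (Fin.natAdd 2 i) * MvPolynomial.rename (Fin.castAdd r) (f i)) :
    ∃ S : Finset (ℕ × ℕ), InPoleRing (Linv k) S (zeta g) ∧
      ∀ p ∈ S, 0 < p.1 ∧ 0 < p.2 ∧ ∀ b : Polynomial k,
        LocalBernsteinEq g b → b.eval (-(p.1 : k) / (p.2 : k)) = 0 :=
  hg ▸ Id.main f hf

end Pool.Agent.Results.MP_b91a16_ag.PlaneIdeals
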